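import Pool.Agent.V11327.PRH

/-!
# Projections of a point of the plane along a random direction are Martin-Löf random
-/

set_option autoImplicit false

namespace Pool.Agent.Results.MP_5eff62_lc.RandomProjection

open Pool.Agent.Helper227 Pool.Agent.V11327.PR Filter
open scoped ENNReal

/-! ### Effective dimension -/

/-- A prefix-free machine: a partial computable function from strings to natural numbers with a
prefix-free domain. -/
def IsMachine (M : List Bool →. ℕ) : Prop :=
  Partrec M ∧ ∀ σ τ : List Bool, (M σ).Dom → (M τ).Dom → σ <+: τ → σ = τ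

/-- An optimal prefix-free machine. -/
def IsOptimal (U : List Bool →. ℕ) : Prop :=
  IsMachine U ∧ ∀ M : List Bool →. ℕ, IsMachine M → ∃ c : ℕ, ∀ (τ : List Bool) (n : ℕ),
    n ∈ M τ → ∃ τ' : List Bool, τ'.length ≤ τ.length + c ∧ n ∈ U τ'

/-- Prefix-free Kolmogorov complexity of a natural number. -/
noncomputable def KU (U : List Bool →. ℕ) (n : ℕ) : ℕ :=
  sInf {l | ∃ τ : List Bool, τ.length = l ∧ n ∈ U τ}

/-- The code of a rational point (numerators and denominators of the reduced fractions). -/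
def code (q : ℚ × ℚ) : ℕ := Encodable.encode ((q.1.num, q.1.den), (q.2.num, q.2.den))

/-- `K_r(x) = min {K(q) : q ∈ ℚ², |q - x| ≤ 2 ^ (-r)}`. -/
noncomputable def Kr (U : List Bool →. ℕ) (x : ℝ × ℝ) (r : ℕ) : ℕ :=
  sInf {k | ∃ q : ℚ × ℚ, Real.sqrt ((q.1 - x.1) ^ 2 + (q.2 - x.2) ^ 2) ≤ (1 / 2) ^ r ∧
    k = KU U (code q)}

/-- The effective dimension `dim(x) = liminf K_r(x) / r`. -/
noncomputable def dim (U : List Bool →. ℕ) (x : ℝ × ℝ) : ℝ≥0∞ :=
  liminf (fun r : ℕ => (Kr U x r : ℝ≥0∞) / r) atTop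

/-! ### Randomness -/

/-- The real number `t` is Martin-Löf random relative to the oracle `z`: the binary expansion of its
fractional part is. -/
def Random (z : ℕ → Bool) (t : ℝ) : Prop := MLR z (bits t)

/-- The oracle `z` encodes both coordinates of `x`: it computes the binary expansions of their
fractional parts (the integer parts are finite information). -/
def Encodes (z : ℕ → Bool) (x : ℝ × ℝ) : Prop := TLe (bits x.1) z ∧ TLe (bits x.2) z

/-- The inner product of `x` with the direction `(cos 2πθ, sin 2πθ)`. -/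
noncomputable def proj (θ : ℝ) (x : ℝ × ℝ) : ℝ :=
  x.1 * Real.cos (2 * Real.pi * θ) + x.2 * Real.sin (2 * Real.pi * θ)

/-- The origin has effective dimension `0`. -/
lemma dim_zero (U : List Bool →. ℕ) : dim U (0, 0) = 0 := by
  have h1 : ∀ r : ℕ, (Kr U (0, 0) r : ℝ≥0∞) / r ≤ (KU U (code (0, 0)) : ℝ≥0∞) / r := by
    intro r
    gcongr
    refine Nat.sInf_le ⟨(0, 0), ?_, rfl⟩
    simp
  have h2 : Tendsto (fun r : ℕ => (KU U (code (0, 0)) : ℝ≥0∞) / r) atTop (nhds 0) := by
    have h3 := ENNReal.Tendsto.const_div (a := (KU U (code (0, 0)) : ℝ≥0∞))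
      ENNReal.tendsto_nat_nhds_top (Or.inr (ENNReal.natCast_ne_top _))
    simpa using h3
  have h4 : Tendsto (fun r : ℕ => (Kr U (0, 0) r : ℝ≥0∞) / r) atTop (nhds 0) :=
    tendsto_of_tendsto_of_tendsto_of_le_of_le tendsto_const_nhds h2 (fun _ => bot_le) h1
  exact h4.liminf_eq

lemma zero_tLe (z : ℕ → Bool) : TLe (fun _ => false) z := by
  rw [tLe_iff]
  refine ⟨fun a => a.2.2 = false, S1.of_prim ?_, fun _ _ _ _ _ h => h, fun n b => ?_⟩
  · exact Primrec.eq.comp (Primrec.snd.comp Primrec.snd) (Primrec.const false)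
  · simp [eq_comm]

/-- **Projections along random directions are random.**

(1) Q1: let `dim x > 1`, and let the direction `(cos 2πθ, sin 2πθ)` be Martin-Löf random relative to
an oracle encoding both coordinates of `x`. Then the projection `proj θ x` is Martin-Löf random
(relative to the trivial oracle, and even relative to the oracle encoding `x`).

(2) The same for every point `x` different from the origin, whatever its dimension. -/
theorem result :
    (∀ U : List Bool →. ℕ, IsOptimal U → ∀ x : ℝ × ℝ, 1 < dim U x →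
      ∀ z : ℕ → Bool, Encodes z x → ∀ θ ∈ Set.Ico (0 : ℝ) 1, Random z θ →
        Random (fun _ => false) (proj θ x) ∧ Random z (proj θ x)) ∧
    (∀ x : ℝ × ℝ, x ≠ (0, 0) → ∀ z : ℕ → Bool, Encodes z x → ∀ θ ∈ Set.Ico (0 : ℝ) 1,
      Random z θ → Random z (proj θ x)) := by
  have main : ∀ x : ℝ × ℝ, x ≠ (0, 0) → ∀ z : ℕ → Bool, Encodes z x →
      ∀ θ ∈ Set.Ico (0 : ℝ) 1, Random z θ → Random z (proj θ x) := by
    intro x hx z hz θ hθ hr
    exact random_F hz.1 hz.2 (fun h => hx (Prod.ext h.1 h.2)) hθ hr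
  refine ⟨?_, main⟩
  intro U _ x hx z hz θ hθ hr
  have h0 : x ≠ (0, 0) := by
    rintro rfl
    rw [dim_zero] at hx
    exact absurd hx (by simp)
  have h1 := main x h0 z hz θ hθ hr
  exact ⟨MLR.mono (zero_tLe z) h1, h1⟩

end Pool.Agent.Results.MP_5eff62_lc.RandomProjection
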